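import Pool.Agent.Helper34.R9.Sheet

/-! # Row ROOT: roots modulo `q` in an interval (MP_798d7d_nt) -/

set_option autoImplicit false

namespace Pool.Helper34.R9

open Polynomial

theorem st_ROOT : ST_ROOT := by
  classical
  intro W d q n hq hdeg hco F hF
  have : Fact q.Prime := ⟨hq⟩
  set V : (ZMod q)[X] := W.map (Int.castRingHom (ZMod q)) with hV
  have hc : V.coeff d ≠ 0 := by
    rw [hV, coeff_map]
    intro h
    apply hco
    have h' : ((W.coeff d : ℤ) : ZMod q) = 0 := by simpa using h
    exact (ZMod.intCast_zmod_eq_zero_iff_dvd _ _).1 h'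
  have hV0 : V ≠ 0 := by
    intro h
    apply hc
    rw [h, coeff_zero]
  have hVd : V.natDegree ≤ d := le_trans natDegree_map_le hdeg
  have hcard : V.roots.toFinset.card ≤ d :=
    le_trans (Multiset.toFinset_card_le _) (le_trans (card_roots' V) hVd)
  have hmap : ∀ b ∈ F, ((b : ZMod q), b / q) ∈ V.roots.toFinset ×ˢ Finset.range (n / q + 1) := by
    intro b hb
    obtain ⟨hbn, hdv⟩ := hF b hb
    rw [Finset.mem_product, Multiset.mem_toFinset, mem_roots hV0, Finset.mem_range]
    refine ⟨?_, ?_⟩
    · have h1 : ((W.eval (b : ℤ) : ℤ) : ZMod q) = 0 :=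
        (ZMod.intCast_zmod_eq_zero_iff_dvd _ _).2 hdv
      have h2 : V.eval ((Int.castRingHom (ZMod q)) (b : ℤ)) = Int.castRingHom (ZMod q) (W.eval (b : ℤ)) := by
        rw [hV]
        exact eval_map_apply _ _
      rw [IsRoot.def]
      have h3 : (Int.castRingHom (ZMod q)) (b : ℤ) = (b : ZMod q) := by simp
      rw [h3] at h2
      rw [h2]
      simpa using h1
    · exact Nat.lt_succ_of_le (Nat.div_le_div_right hbn.le)
  have hinj : Set.InjOn (fun b : ℕ => ((b : ZMod q), b / q)) (F : Set ℕ) := by
    intro a _ b _ hab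
    simp only [Prod.mk.injEq] at hab
    obtain ⟨h1, h2⟩ := hab
    have h3 : a % q = b % q := (ZMod.natCast_eq_natCast_iff' a b q).1 h1
    rw [← Nat.div_add_mod a q, ← Nat.div_add_mod b q, h2, h3]
  calc F.card ≤ (V.roots.toFinset ×ˢ Finset.range (n / q + 1)).card :=
        Finset.card_le_card_of_injOn _ hmap hinj
    _ = V.roots.toFinset.card * (n / q + 1) := by
        rw [Finset.card_product, Finset.card_range]
    _ ≤ d * (n / q + 1) := Nat.mul_le_mul_right _ hcard

end Pool.Helper34.R9
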